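import Pool.Agent.Q294.Ce.Stm

/-!
# JOB J5a: the walk driven by independent coins is an excited random walk
-/

set_option autoImplicit false

namespace Pool.Agent.Q176.Ce

open MeasureTheory ProbabilityTheory Filter Topology Finset
open _root_.Q294.Cookie (suc fai xx ll cw xx_succ ll_succ)
open Pool.Agent.Q294.Ce

/-! ### measurability -/

lemma measurable_eval {X I : Type*} [MeasurableSpace X] [MeasurableSpace I] [Countable I]
    [MeasurableSingletonClass I] : Measurable fun p : I × (I → X) => p.2 p.1 :=
  measurable_from_prod_countable_right fun y => measurable_pi_apply y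

lemma measurable_cw (n : ℕ) : Measurable fun c : ℤ → ℕ → Bool => cw c n := by
  induction n with
  | zero => exact measurable_const
  | succ n ih =>
    have hx : Measurable fun c : ℤ → ℕ → Bool => (cw c n).1 := measurable_fst.comp ih
    have hl : Measurable fun c : ℤ → ℕ → Bool => (cw c n).2 := measurable_snd.comp ih
    have h1 : Measurable fun c : ℤ → ℕ → Bool => (cw c n).2 (cw c n).1 :=
      measurable_eval.comp (hx.prodMk hl)
    have h2 : Measurable fun c : ℤ → ℕ → Bool => c (cw c n).1 :=
      measurable_eval.comp (hx.prodMk measurable_id)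
    have h3 : Measurable fun c : ℤ → ℕ → Bool => c (cw c n).1 ((cw c n).2 (cw c n).1) :=
      measurable_eval.comp (h1.prodMk h2)
    refine Measurable.prodMk ?_ ?_
    · have : Measurable fun p : Bool × ℤ => if p.1 then p.2 + 1 else p.2 - 1 :=
        Measurable.of_discrete
      exact this.comp (h3.prodMk hx)
    · refine measurable_pi_iff.mpr fun y => ?_
      have h4 : Measurable fun c : ℤ → ℕ → Bool => (cw c n).2 y := (measurable_pi_apply y).comp hl
      have h5 : Measurable fun p : ℤ × ℕ × ℕ => if y = p.1 then p.2.1 + 1 else p.2.2 :=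
        Measurable.of_discrete
      have h6 : Measurable fun c : ℤ → ℕ → Bool =>
          if y = (cw c n).1 then (cw c n).2 (cw c n).1 + 1 else (cw c n).2 y :=
        h5.comp (hx.prodMk (h1.prodMk h4))
      have e : (fun c : ℤ → ℕ → Bool => (Function.update (cw c n).2 (cw c n).1
          ((cw c n).2 (cw c n).1 + 1)) y) =
          fun c => if y = (cw c n).1 then (cw c n).2 (cw c n).1 + 1 else (cw c n).2 y := by
        funext c
        rw [Function.update_apply]
      exact e ▸ h6

/-! ### cylinders -/

/-- the first `L y` coins at `y` are prescribed -/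
def Cyl (L : ℤ → ℕ) (v : ℤ → ℕ → Bool) : Set (ℤ → ℕ → Bool) := {c | ∀ y, ∀ j < L y, c y j = v y j}

lemma coins_cyl (p : ℕ → ℝ) (l : ℕ) (w : ℕ → Bool) :
    coins p {f | ∀ j < l, f j = w j} = ∏ j ∈ range l, bern (p j) {w j} := by
  have h : {f : ℕ → Bool | ∀ j < l, f j = w j} =
      Set.pi (range l : Set ℕ) (fun j => ({w j} : Set Bool)) := by
    ext f
    simp [Set.mem_pi]
  rw [h]
  unfold coins
  exact Measure.infinitePi_pi _ fun j _ => measurableSet_singleton _

lemma coins_meas (l : ℕ) (w : ℕ → Bool) : MeasurableSet {f : ℕ → Bool | ∀ j < l, f j = w j} := by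
  have h : {f : ℕ → Bool | ∀ j < l, f j = w j} =
      ⋂ j ∈ range l, (fun f : ℕ → Bool => f j) ⁻¹' {w j} := by
    ext f
    simp
  rw [h]
  exact Finset.measurableSet_biInter _ fun j _ =>
    (measurable_pi_apply j) (measurableSet_singleton (w j))

lemma env_cyl (p : ℕ → ℝ) (L : ℤ → ℕ) (v : ℤ → ℕ → Bool) (Y : Finset ℤ) (hY : ∀ y, y ∉ Y → L y = 0) :
    env p (Cyl L v) = ∏ y ∈ Y, ∏ j ∈ range (L y), bern (p j) {v y j} := by
  have h : Cyl L v = Set.pi (Y : Set ℤ) (fun y => {f : ℕ → Bool | ∀ j < L y, f j = v y j}) := by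
    ext c
    simp only [Cyl, Set.mem_pi, Set.mem_ofPred_eq, mem_coe]
    constructor
    · intro hc y _
      exact hc y
    · intro hc y
      by_cases hy : y ∈ Y
      · exact hc y hy
      · rw [hY y hy]
        intro j hj
        omega
  rw [h]
  unfold env
  rw [Measure.infinitePi_pi _ fun y _ => coins_meas _ _]
  exact prod_congr rfl fun y _ => coins_cyl p _ _

/-- one more coin -/
lemma cyl_insert (L : ℤ → ℕ) (v : ℤ → ℕ → Bool) (z : ℤ) (b : Bool) :
    Cyl L v ∩ {c | c z (L z) = b} =
      Cyl (Function.update L z (L z + 1)) (Function.update v z (Function.update (v z) (L z) b)) := by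
  ext c
  simp only [Cyl, Set.mem_inter_iff, Set.mem_ofPred_eq]
  constructor
  · rintro ⟨h1, h2⟩ y j hj
    by_cases hy : y = z
    · subst hy
      rw [Function.update_self] at hj ⊢
      by_cases hjl : j = L y
      · subst hjl
        rw [Function.update_self]
        exact h2
      · rw [Function.update_of_ne hjl]
        exact h1 y j (by omega)
    · rw [Function.update_of_ne hy] at hj ⊢
      exact h1 y j hj
  · intro h
    refine ⟨fun y j hj => ?_, ?_⟩
    · have h1 := h y j
      by_cases hy : y = z
      · subst hy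
        rw [Function.update_self, Function.update_self, Function.update_of_ne (by omega)] at h1
        exact h1 (by omega)
      · rw [Function.update_of_ne hy, Function.update_of_ne hy] at h1
        exact h1 hj
    · have h1 := h z (L z)
      rw [Function.update_self, Function.update_self, Function.update_self] at h1
      exact h1 (by omega)

lemma env_step (p : ℕ → ℝ) (L : ℤ → ℕ) (v : ℤ → ℕ → Bool) (Y : Finset ℤ)
    (hY : ∀ y, y ∉ Y → L y = 0) (z : ℤ) (b : Bool) :
    env p (Cyl L v ∩ {c | c z (L z) = b}) = bern (p (L z)) {b} * env p (Cyl L v) := by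
  classical
  have hz : z ∈ insert z Y := mem_insert_self z Y
  rw [cyl_insert, env_cyl p _ _ (insert z Y), env_cyl p L v (insert z Y)]
  · rw [← mul_prod_erase _ _ hz, ← mul_prod_erase _ _ hz, Function.update_self, Function.update_self,
      prod_range_succ, Function.update_self]
    have h1 : ∏ j ∈ range (L z), bern (p j) {Function.update (v z) (L z) b j} =
        ∏ j ∈ range (L z), bern (p j) {v z j} := by
      refine prod_congr rfl fun j hj => ?_
      rw [mem_range] at hj
      rw [Function.update_of_ne (by omega)]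
    have h2 : ∏ y ∈ (insert z Y).erase z, ∏ j ∈ range (Function.update L z (L z + 1) y),
        bern (p j) {Function.update v z (Function.update (v z) (L z) b) y j} =
        ∏ y ∈ (insert z Y).erase z, ∏ j ∈ range (L y), bern (p j) {v y j} := by
      refine prod_congr rfl fun y hy => ?_
      rw [mem_erase] at hy
      rw [Function.update_of_ne hy.1, Function.update_of_ne hy.1]
    rw [h1, h2]
    ring
  · intro y hy
    rw [mem_insert, not_or] at hy
    exact hY y hy.2
  · intro y hy
    rw [mem_insert, not_or] at hy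
    rw [Function.update_of_ne hy.1]
    exact hY y hy.2

/-! ### paths -/

/-- the event that the walk follows `x` up to time `n` -/
def Ev (x : ℕ → ℤ) (n : ℕ) : Set (ℤ → ℕ → Bool) := {c | ∀ k ≤ n, xx c k = x k}

/-- the local time of the path `x` -/
def Lt (x : ℕ → ℤ) (n : ℕ) (y : ℤ) : ℕ := ((range n).filter fun k => x k = y).card

lemma Lt_succ (x : ℕ → ℤ) (n : ℕ) (y : ℤ) :
    Lt x (n + 1) y = Lt x n y + if y = x n then 1 else 0 := by
  unfold Lt
  rw [range_add_one, filter_insert]
  split_ifs with h1 h2 h2
  · rw [card_insert_of_notMem (by simp)]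
  · exact absurd h1.symm h2
  · exact absurd h2.symm h1
  · simp

lemma ll_eq {x : ℕ → ℤ} {n : ℕ} {c : ℤ → ℕ → Bool} (hc : ∀ k < n, xx c k = x k) (y : ℤ) :
    ll c n y = Lt x n y := by
  induction n with
  | zero => simp [ll, cw, Lt]
  | succ n ih =>
    rw [ll_succ, Lt_succ, ih fun k hk => hc k (by omega), hc n (by omega)]

lemma visits_eq (x : ℕ → ℤ) (n : ℕ) : visits x n - 1 = Lt x n (x n) := by
  have h := Lt_succ x n (x n)
  have h2 : visits x n = Lt x (n + 1) (x n) := rfl
  rw [h2, h, if_pos rfl]
  omega

lemma Ev_right (x : ℕ → ℤ) (n : ℕ) :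
    {c | (∀ k ≤ n, xx c k = x k) ∧ xx c (n + 1) = x n + 1} =
      Ev x n ∩ {c | c (x n) (Lt x n (x n)) = true} := by
  ext c
  simp only [Ev, Set.mem_inter_iff, Set.mem_ofPred_eq]
  refine and_congr_right fun h => ?_
  rw [xx_succ, h n le_rfl, ll_eq (fun k hk => h k hk.le)]
  split_ifs with h1
  · simp [h1]
  · refine ⟨fun h2 => ?_, fun h2 => absurd h2 h1⟩
    omega

lemma Ev_left (x : ℕ → ℤ) (n : ℕ) :
    {c | (∀ k ≤ n, xx c k = x k) ∧ xx c (n + 1) = x n - 1} =
      Ev x n ∩ {c | c (x n) (Lt x n (x n)) = false} := by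
  ext c
  simp only [Ev, Set.mem_inter_iff, Set.mem_ofPred_eq]
  refine and_congr_right fun h => ?_
  rw [xx_succ, h n le_rfl, ll_eq (fun k hk => h k hk.le)]
  split_ifs with h1
  · refine ⟨fun h2 => ?_, fun h2 => ?_⟩
    · omega
    · rw [h1] at h2
      exact absurd h2 (by decide)
  · simp [h1]

lemma Ev_succ (x : ℕ → ℤ) (n : ℕ) :
    Ev x (n + 1) = {c | (∀ k ≤ n, xx c k = x k) ∧ xx c (n + 1) = x (n + 1)} := by
  ext c
  simp only [Ev, Set.mem_ofPred_eq]
  constructor
  · intro h
    exact ⟨fun k hk => h k (by omega), h _ le_rfl⟩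
  · rintro ⟨h1, h2⟩ k hk
    rcases Nat.lt_or_ge k (n + 1) with h | h
    · exact h1 k (by omega)
    · have : k = n + 1 := by omega
      rw [this]
      exact h2

lemma update_Lt (x : ℕ → ℤ) (n : ℕ) :
    Function.update (Lt x n) (x n) (Lt x n (x n) + 1) = Lt x (n + 1) := by
  funext y
  rw [Lt_succ]
  by_cases h : y = x n
  · subst h
    simp
  · rw [Function.update_of_ne h, if_neg h, add_zero]

/-- the events are cylinders or empty -/
lemma Ev_cyl (x : ℕ → ℤ) (n : ℕ) : Ev x n = ∅ ∨ ∃ v, Ev x n = Cyl (Lt x n) v := by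
  induction n with
  | zero =>
    by_cases h : x 0 = 0
    · right
      refine ⟨fun _ _ => true, ?_⟩
      ext c
      simp only [Ev, Cyl, Set.mem_ofPred_eq]
      constructor
      · intro _ y j hj
        simp [Lt] at hj
      · intro _ k hk
        have : k = 0 := by omega
        subst this
        rw [h]
        rfl
    · left
      ext c
      simp only [Ev, Set.mem_ofPred_eq, Set.mem_empty_iff_false, iff_false]
      intro hc
      exact h (hc 0 le_rfl).symm
  | succ n ih =>
    rcases ih with h0 | ⟨v, hv⟩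
    · left
      rw [Ev_succ]
      ext c
      simp only [Set.mem_ofPred_eq, Set.mem_empty_iff_false, iff_false, not_and]
      intro h1 _
      have : c ∈ Ev x n := h1
      rw [h0] at this
      exact this
    · by_cases h1 : x (n + 1) = x n + 1
      · right
        rw [Ev_succ, h1, Ev_right, hv, cyl_insert, update_Lt]
        exact ⟨_, rfl⟩
      · by_cases h2 : x (n + 1) = x n - 1
        · right
          rw [Ev_succ, h2, Ev_left, hv, cyl_insert, update_Lt]
          exact ⟨_, rfl⟩
        · left
          rw [Ev_succ]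
          ext c
          simp only [Set.mem_ofPred_eq, Set.mem_empty_iff_false, iff_false, not_and]
          intro h3 h4
          rw [xx_succ, h3 n le_rfl] at h4
          split_ifs at h4
          · exact h1 h4.symm
          · exact h2 h4.symm

lemma Lt_supp (x : ℕ → ℤ) (n : ℕ) (y : ℤ) (hy : y ∉ (range n).image x) : Lt x n y = 0 := by
  unfold Lt
  rw [card_eq_zero, filter_eq_empty_iff]
  intro k hk h
  exact hy (mem_image.2 ⟨k, hk, h⟩)

lemma step_real (p : ℕ → ℝ) (x : ℕ → ℤ) (n : ℕ) (b : Bool) :
    (env p).real (Ev x n ∩ {c | c (x n) (Lt x n (x n)) = b}) =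
      (bern (p (Lt x n (x n)))).real {b} * (env p).real (Ev x n) := by
  rcases Ev_cyl x n with h | ⟨v, hv⟩
  · rw [h]
    simp
  · rw [hv, measureReal_def, measureReal_def, measureReal_def,
      env_step p _ _ ((range n).image x) (Lt_supp x n), ENNReal.toReal_mul]

lemma bern_true {a : ℝ} (h0 : 0 ≤ a) (h1 : a ≤ 1) : (bern a).real {true} = a := by
  rw [measureReal_def]
  unfold bern
  rw [Measure.add_apply, Measure.smul_apply, Measure.smul_apply, Measure.dirac_apply,
    Measure.dirac_apply]
  simp [cl_eq h0 h1, h0]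

lemma bern_false {a : ℝ} (h0 : 0 ≤ a) (h1 : a ≤ 1) : (bern a).real {false} = 1 - a := by
  rw [measureReal_def]
  unfold bern
  rw [Measure.add_apply, Measure.smul_apply, Measure.smul_apply, Measure.dirac_apply,
    Measure.dirac_apply]
  simp [cl_eq h0 h1, h1]

theorem stack : S_stack := by
  intro p h0 h1
  refine ⟨fun n => ?_, ?_, fun n x => ?_, fun n x => ?_⟩
  · exact measurable_fst.comp (measurable_cw n)
  · exact Filter.Eventually.of_forall fun c => rfl
  · rw [Ev_right, step_real, bern_true (h0 _) (h1 _), visits_eq]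
    rfl
  · rw [Ev_left, step_real, bern_false (h0 _) (h1 _), visits_eq]
    rfl

end Pool.Agent.Q176.Ce
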